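import Mathlib

/-!
# An exceptional collection whose Hom-Ext quiver has a commutativity relation

For the quiver of type `D₄` with arrows `1 → 0`, `2 → 0`, `3 → 0` the thin representations with
supports `{0, 3}`, `{0, 1, 3}`, `{0, 2, 3}`, `{3}` form an exceptional collection without
extensions whose endomorphism algebra is the commutative square.
-/

set_option autoImplicit false

universe u

namespace Pool.Agent.Results.MP_2a1499_al.CommutativeSquare

/-- Finite-dimensional representations of the quiver `V`: a vector space `k ^ (dim i)` for each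
vertex, and a matrix for each arrow. -/
structure Rep (k : Type u) (V : Type) [Quiver.{0} V] where
  dim : V → ℕ
  map : ∀ {i j : V}, (i ⟶ j) → Matrix (Fin (dim j)) (Fin (dim i)) k

section Defs

variable {k : Type u} [Field k] {V : Type} [Quiver.{0} V]

/-- families of linear maps, one for each vertex -/
abbrev Fam (X Y : Rep k V) : Type u := ∀ i, Matrix (Fin (Y.dim i)) (Fin (X.dim i)) k

/-- families of linear maps, one for each arrow; they represent extensions -/
abbrev ArrFam (X Y : Rep k V) : Type u :=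
  ∀ i j : V, (i ⟶ j) → Matrix (Fin (Y.dim j)) (Fin (X.dim i)) k

/-- `f` is a morphism of representations -/
def IsHom {X Y : Rep k V} (f : Fam X Y) : Prop :=
  ∀ (i j : V) (a : i ⟶ j), f j * X.map a = Y.map a * f i

/-- The family `ξ` represents the zero element of `Ext¹ (X, Y)`. (By the standard resolution,
`Ext¹ (X, Y)` is the cokernel of the map from `Fam X Y` to `ArrFam X Y` which sends `h` to
`h j * X.map a - Y.map a * h i`.) -/
def IsSplit {X Y : Rep k V} (ξ : ArrFam X Y) : Prop :=
  ∃ h : Fam X Y, ∀ (i j : V) (a : i ⟶ j), ξ i j a = h j * X.map a - Y.map a * h i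

/-- A pair of a family `f` and a family `ξ`; if `IsHom f`, it represents an element of
`Hom (X, Y) ⊕ Ext¹ (X, Y)`, that is, of `Hom (X, Y) ⊕ Hom (X, Σ Y)`. -/
abbrev HE (X Y : Rep k V) : Type u := Fam X Y × ArrFam X Y

/-- The pair represents zero. -/
def IsZero {X Y : Rep k V} (x : HE X Y) : Prop := (∀ i, x.1 i = 0) ∧ IsSplit x.2

/-- Composition: products of morphisms, push-forward and pull-back of extensions; the product of
two extensions is zero. -/
def comp {X Y Z : Rep k V} (y : HE Y Z) (x : HE X Y) : HE X Z :=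
  (fun i => y.1 i * x.1 i, fun i j a => y.1 j * x.2 i j a + y.2 i j a * x.1 i)

/-- the identity -/
def one (X : Rep k V) : HE X X := (fun _ => 1, fun _ _ _ => 0)

/-- the sum -/
def add {X Y : Rep k V} (x y : HE X Y) : HE X Y :=
  (fun i => x.1 i + y.1 i, fun i j a => x.2 i j a + y.2 i j a)

/-- the difference -/
def sub {X Y : Rep k V} (x y : HE X Y) : HE X Y :=
  (fun i => x.1 i - y.1 i, fun i j a => x.2 i j a - y.2 i j a)

/-- the product with a scalar -/
def smul {X Y : Rep k V} (c : k) (x : HE X Y) : HE X Y :=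
  (fun i => c • x.1 i, fun i j a => c • x.2 i j a)

/-- the linear combination of the `φ a` with coefficients `c a` -/
def lin {X Y : Rep k V} {ι : Type} (φ : ι → HE X Y) (c : ι →₀ k) : HE X Y :=
  (fun i => ∑ a ∈ c.support, c a • (φ a).1 i, fun i j e => ∑ a ∈ c.support, c a • (φ a).2 i j e)

/-- `Hom (X, Y) = 0` -/
def NoHom (X Y : Rep k V) : Prop := ∀ f : Fam X Y, IsHom f → ∀ i, f i = 0

/-- `Ext¹ (X, Y) = 0` -/
def NoExt (X Y : Rep k V) : Prop := ∀ ξ : ArrFam X Y, IsSplit ξ

/-- `X` is exceptional: it is indecomposable, that is, it is nonzero and has no idempotent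
endomorphism except `0` and `1`, and `Ext¹ (X, X) = 0`. -/
def IsExceptional (X : Rep k V) : Prop :=
  (∃ i, X.dim i ≠ 0) ∧
    (∀ f : Fam X X, IsHom f → (∀ i, f i * f i = f i) → (∀ i, f i = 0) ∨ ∀ i, f i = 1) ∧ NoExt X X

/-- The modules `X i` form an exceptional collection: for some ordering they are an exceptional
sequence. -/
def IsExceptionalCollection {m : ℕ} (X : Fin m → Rep k V) : Prop :=
  (∀ i, IsExceptional (X i)) ∧ ∃ σ : Equiv.Perm (Fin m),
    ∀ i j, j < i → NoHom (X (σ i)) (X (σ j)) ∧ NoExt (X (σ i)) (X (σ j))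

variable {m : ℕ} (X : Fin m → Rep k V)

/-- the radical of the category with objects `X i` and morphisms `Hom ⊕ Ext¹` -/
def rad (i j : Fin m) : Set (HE (X i) (X j)) :=
  {x | IsHom x.1 ∧ ∀ y : HE (X j) (X i), IsHom y.1 → ∃ z : HE (X i) (X i), IsHom z.1 ∧
    IsZero (sub (comp z (sub (one _) (comp y x))) (one _)) ∧
    IsZero (sub (comp (sub (one _) (comp y x)) z) (one _))}

/-- The square of the radical, with the pairs that represent zero: the smallest set of pairs that
contains the products of elements of the radical and the pairs that represent zero, and is closed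
under addition and under multiplication with scalars. -/
inductive RadSq (i j : Fin m) : HE (X i) (X j) → Prop
  | null (w : HE (X i) (X j)) (h : IsZero w) : RadSq i j w
  | mul (l : Fin m) (x : HE (X i) (X l)) (hx : x ∈ rad X i l) (y : HE (X l) (X j))
    (hy : y ∈ rad X l j) : RadSq i j (comp y x)
  | add (x y : HE (X i) (X j)) (hx : RadSq i j x) (hy : RadSq i j y) : RadSq i j (add x y)
  | smul (c : k) (x : HE (X i) (X j)) (hx : RadSq i j x) : RadSq i j (smul c x)

/-- A Hom-Ext quiver of the collection `X`: arrows `A i j` from `X i` to `X j` together with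
morphisms or extensions `φ a` that give a basis of the radical modulo its square. -/
structure HomExtQuiver where
  A : Fin m → Fin m → Type
  φ : ∀ i j, A i j → HE (X i) (X j)
  homogeneous : ∀ i j (a : A i j), (∀ v, (φ i j a).1 v = 0) ∨ ∀ v w e, (φ i j a).2 v w e = 0
  mem_rad : ∀ i j (a : A i j), φ i j a ∈ rad X i j
  spans : ∀ i j, ∀ x ∈ rad X i j, ∃ c : A i j →₀ k, RadSq X i j (sub x (lin (φ i j) c))
  independent : ∀ i j (c : A i j →₀ k), RadSq X i j (lin (φ i j) c) → c = 0

/-- paths -/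
inductive Pth {m : ℕ} (A : Fin m → Fin m → Type) : Fin m → Fin m → Type
  | nil (i : Fin m) : Pth A i i
  | cons {i j l : Fin m} (p : Pth A i j) (a : A j l) : Pth A i l

/-- the length of a path -/
def Pth.length {m : ℕ} {A : Fin m → Fin m → Type} {i : Fin m} : ∀ {j : Fin m}, Pth A i j → ℕ
  | _, .nil _ => 0
  | _, .cons p _ => p.length + 1

/-- concatenation of paths -/
def Pth.append {m : ℕ} {A : Fin m → Fin m → Type} {i j : Fin m} (p : Pth A i j) :
    ∀ {l : Fin m}, Pth A j l → Pth A i l
  | _, .nil _ => p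
  | _, .cons q a => .cons (p.append q) a

variable {X} (Γ : HomExtQuiver X)

/-- the morphism or extension given by a path -/
def eval {i : Fin m} : ∀ {j : Fin m}, Pth Γ.A i j → HE (X i) (X j)
  | _, .nil _ => one _
  | _, .cons p a => comp (Γ.φ _ _ a) (eval p)

/-- the part of the ideal `R` in the space of linear combinations of paths from `i` to `j` -/
def R (i j : Fin m) : Set (Pth Γ.A i j →₀ k) :=
  {c | IsZero (lin (eval Γ (i := i) (j := j)) c)}

/-- The ideal `R` is generated by a set of paths of length at least two. -/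
def IsMonomial : Prop :=
  ∃ S : ∀ i j : Fin m, Set (Pth Γ.A i j), (∀ i j, ∀ s ∈ S i j, 2 ≤ s.length) ∧
    ∀ i j, R Γ i j = Submodule.span k {x : Pth Γ.A i j →₀ k | ∃ (l n : Fin m) (p : Pth Γ.A i l)
      (s : Pth Γ.A l n) (q : Pth Γ.A n j), s ∈ S l n ∧ x = Finsupp.single ((p.append s).append q) 1}

end Defs

section Example

/-- The vertices of the quiver of type `D₄`. -/
def Vtx : Type := Fin 4

instance : Fintype Vtx := inferInstanceAs (Fintype (Fin 4))

instance : DecidableEq Vtx := inferInstanceAs (DecidableEq (Fin 4))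

/-- the centre -/
def v0 : Vtx := (0 : Fin 4)

/-- a leaf -/
def v3 : Vtx := (3 : Fin 4)

/-- There is one arrow from each leaf to the centre. -/
instance : Quiver.{0} Vtx := ⟨fun i j => PLift (i ≠ v0 ∧ j = v0)⟩

instance (i j : Vtx) : Fintype (i ⟶ j) := inferInstanceAs (Fintype (PLift (i ≠ v0 ∧ j = v0)))

theorem acyclic (v : Vtx) (p : Quiver.Path v v) : p.length = 0 := by
  have h2 : ∀ {a b : Vtx} (p : Quiver.Path a b), p.length = 0 ∨ (a ≠ v0 ∧ b = v0) := by
    intro a b p
    induction p with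
    | nil => exact Or.inl rfl
    | cons q e ih =>
      right
      have he := e.down
      rcases ih with h | h
      · have := Quiver.Path.eq_of_length_zero q h
        rw [this]
        exact he
      · exact absurd h.2 he.1
  rcases h2 p with h | h
  · exact h
  · exact absurd h.2 h.1

/-- the vertex with a given number -/
def vtx (p : Fin 4) : Vtx := p

/-- the dimension vectors of the four representations: the supports are `{0, 3}`, `{0, 1, 3}`,
`{0, 2, 3}`, `{3}` -/
def d (p : Fin 4) (i : Vtx) : ℕ :=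
  if i = v3 then 1 else if p = 3 then 0 else if i = v0 then 1 else if i = vtx p then 1 else 0

variable (k : Type u) [Field k]

/-- the thin representations -/
def X (p : Fin 4) : Rep k Vtx where
  dim := d p
  map := fun _ => Matrix.of fun _ _ => 1

variable {k}

theorem d_le_one : ∀ (p : Fin 4) (i : Vtx), d p i ≤ 1 := by decide

theorem sum_eq {n : ℕ} (hn : n ≤ 1) (F : Fin n → k) (z : Fin n) : ∑ i, F i = F z := by
  have : Subsingleton (Fin n) := ⟨fun a b => Fin.ext (by omega)⟩
  exact Fintype.sum_subsingleton F z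

/-- the value at the vertex `3` -/
def evH {p q : Fin 4} (f : Fam (X k p) (X k q)) : k :=
  f v3 ⟨0, Nat.one_pos⟩ ⟨0, Nat.one_pos⟩

theorem arrow_rel {p q : Fin 4} {f : Fam (X k p) (X k q)} (hf : IsHom f) (i : Vtx) (hi : i ≠ v0)
    (x : Fin (d q v0)) (y : Fin (d p i)) :
    ∑ z : Fin (d p v0), f v0 x z = ∑ w : Fin (d q i), f i w y := by
  have h := congrFun (congrFun (hf i v0 ⟨⟨hi, rfl⟩⟩) x) y
  change ∑ z : Fin (d p v0), f v0 x z * (1 : k) = ∑ w : Fin (d q i), (1 : k) * f i w y at h
  simpa using h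

theorem ev_rel {p q : Fin 4} {f : Fam (X k p) (X k q)} (hf : IsHom f) (x : Fin (d q v0)) :
    ∑ z : Fin (d p v0), f v0 x z = evH f := by
  rw [arrow_rel hf v3 (by decide) x ⟨0, Nat.one_pos⟩]
  exact sum_eq (d_le_one q v3) (fun w => f v3 w ⟨0, Nat.one_pos⟩) ⟨0, Nat.one_pos⟩

theorem d_v0 : ∀ (q : Fin 4) (i : Vtx), i ≠ v3 → 0 < d q i → 0 < d q v0 := by decide

theorem hom_entries {p q : Fin 4} {f : Fam (X k p) (X k q)} (hf : IsHom f) (i : Vtx)
    (x : Fin (d q i)) (y : Fin (d p i)) : f i x y = evH f := by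
  by_cases h0 : i = v0
  · subst h0
    rw [← ev_rel hf x]
    exact (sum_eq (d_le_one p v0) (fun z => f v0 x z) y).symm
  by_cases h3 : i = v3
  · subst h3
    have hx : x = ⟨0, Nat.one_pos⟩ := Fin.ext (Nat.lt_one_iff.1 x.2)
    have hy : y = ⟨0, Nat.one_pos⟩ := Fin.ext (Nat.lt_one_iff.1 y.2)
    rw [hx, hy]
    rfl
  · have h := arrow_rel hf i h0 ⟨0, d_v0 q i h3 x.pos⟩ y
    rw [ev_rel hf] at h
    rw [h]
    exact (sum_eq (d_le_one q i) (fun w => f i w y) x).symm

theorem ev_injective {p q : Fin 4} {f g : Fam (X k p) (X k q)} (hf : IsHom f) (hg : IsHom g)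
    (h : evH f = evH g) : f = g := by
  funext i
  ext x y
  rw [hom_entries hf i x y, hom_entries hg i x y, h]

/-- the order on the four representations -/
def le (p q : Fin 4) : Prop := p = q ∨ p = 0 ∨ q = 3

instance (p q : Fin 4) : Decidable (le p q) := inferInstanceAs (Decidable (p = q ∨ p = 0 ∨ q = 3))

theorem not_le_cases : ∀ p q : Fin 4, ¬ le p q → 0 < d q v0 ∧
    (d p v0 = 0 ∨ (vtx p ≠ v0 ∧ 0 < d p (vtx p) ∧ d q (vtx p) = 0)) := by decide

theorem ev_eq_zero {p q : Fin 4} (h : ¬ le p q) {f : Fam (X k p) (X k q)} (hf : IsHom f) :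
    evH f = 0 := by
  obtain ⟨h1, h2 | ⟨h2, h3, h4⟩⟩ := not_le_cases p q h
  · rw [← ev_rel hf ⟨0, h1⟩]
    apply Finset.sum_eq_zero
    intro z
    exact absurd z.pos (by omega)
  · rw [← ev_rel hf ⟨0, h1⟩, arrow_rel hf (vtx p) h2 ⟨0, h1⟩ ⟨0, h3⟩]
    apply Finset.sum_eq_zero
    intro z
    exact absurd z.pos (by omega)

theorem le_cases : ∀ p q : Fin 4, le p q → ∀ i : Vtx, i ≠ v0 → 0 < d q v0 → 0 < d p i →
    d p v0 = d q i := by decide

/-- the canonical morphism -/
def e (p q : Fin 4) : Fam (X k p) (X k q) := fun _ => Matrix.of fun _ _ => 1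

theorem e_isHom {p q : Fin 4} (h : le p q) : IsHom (e (k := k) p q) := by
  rintro i j ⟨⟨hi, rfl⟩⟩
  ext x y
  have hx : 0 < d q v0 := Fin.pos x
  have hy : 0 < d p i := Fin.pos y
  change ∑ z : Fin (d p v0), (1 : k) * 1 = ∑ w : Fin (d q i), (1 : k) * 1
  rw [le_cases p q h i hi hx hy]

theorem zero_isHom {p q : Fin 4} : IsHom (fun _ => 0 : Fam (X k p) (X k q)) := by
  intro i j a
  exact (Matrix.zero_mul ((X k p).map a)).trans (Matrix.mul_zero ((X k q).map a)).symm

theorem one_isHom {p : Fin 4} : IsHom (one (X k p)).1 := by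
  intro i j a
  exact (Matrix.one_mul ((X k p).map a)).trans (Matrix.mul_one ((X k p).map a)).symm

theorem comp_isHom {p q r : Fin 4} {y : HE (X k q) (X k r)} {x : HE (X k p) (X k q)}
    (hy : IsHom y.1) (hx : IsHom x.1) : IsHom (comp y x).1 := by
  intro i j a
  change y.1 j * x.1 j * (X k p).map a = (X k r).map a * (y.1 i * x.1 i)
  rw [Matrix.mul_assoc, hx i j a, ← Matrix.mul_assoc, hy i j a, Matrix.mul_assoc]

theorem sub_isHom {p q : Fin 4} {y x : HE (X k p) (X k q)}
    (hy : IsHom y.1) (hx : IsHom x.1) : IsHom (sub y x).1 := by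
  intro i j a
  change (y.1 j - x.1 j) * (X k p).map a = (X k q).map a * (y.1 i - x.1 i)
  rw [Matrix.sub_mul, Matrix.mul_sub, hx i j a, hy i j a]

theorem add_isHom {p q : Fin 4} {y x : HE (X k p) (X k q)}
    (hy : IsHom y.1) (hx : IsHom x.1) : IsHom (add y x).1 := by
  intro i j a
  change (y.1 j + x.1 j) * (X k p).map a = (X k q).map a * (y.1 i + x.1 i)
  rw [Matrix.add_mul, Matrix.mul_add, hx i j a, hy i j a]

theorem smul_isHom {p q : Fin 4} (c : k) {x : HE (X k p) (X k q)} (hx : IsHom x.1) :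
    IsHom (smul c x).1 := by
  intro i j a
  change (c • x.1 j) * (X k p).map a = (X k q).map a * (c • x.1 i)
  rw [Matrix.smul_mul, Matrix.mul_smul, hx i j a]

theorem ev_comp {p q r : Fin 4} (y : HE (X k q) (X k r)) (x : HE (X k p) (X k q)) :
    evH (comp y x).1 = evH y.1 * evH x.1 := by
  change ∑ z : Fin (d q v3), y.1 v3 ⟨0, Nat.one_pos⟩ z * x.1 v3 z ⟨0, Nat.one_pos⟩ = _
  exact sum_eq (d_le_one q v3) _ ⟨0, Nat.one_pos⟩

theorem ext_cases : ∀ p q : Fin 4, ∀ i : Vtx, i ≠ v0 → 0 < d p i → d q i = 0 →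
    0 < d q v0 → d p v0 = 1 := by decide

theorem ext_cases' : ∀ p q : Fin 4, ∀ i j : Vtx, i ≠ v0 → 0 < d p i → d q i = 0 →
    j ≠ v0 → 0 < d p j → d q j = 0 → 0 < d q v0 → j = i := by decide

/-- There are no extensions. -/
theorem noExt (p q : Fin 4) : NoExt (X k p) (X k q) := by
  intro ξ
  -- the values of `ξ`
  let t : Vtx → k := fun i => if h : i ≠ v0 then
    ∑ x : Fin (d q v0), ∑ y : Fin (d p i), ξ i v0 ⟨⟨h, rfl⟩⟩ x y else 0
  have ht : ∀ (i : Vtx) (h : i ≠ v0) (x : Fin (d q v0)) (y : Fin (d p i)),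
      ξ i v0 ⟨⟨h, rfl⟩⟩ x y = t i := by
    intro i h x y
    simp only [t, dif_pos h]
    rw [sum_eq (d_le_one q v0) _ x]
    exact (sum_eq (d_le_one p i) (fun y => ξ i v0 ⟨⟨h, rfl⟩⟩ x y) y).symm
  let c0 : k := ∑ i : Vtx, if i ≠ v0 ∧ 0 < d p i ∧ d q i = 0 then t i else 0
  let c : Vtx → k := fun i => if i = v0 then c0 else (d p v0 : k) * c0 - t i
  refine ⟨fun i => Matrix.of fun _ _ => c i, ?_⟩
  rintro i j ⟨⟨hi, rfl⟩⟩
  ext x y
  have hx : 0 < d q v0 := Fin.pos x
  have hy : 0 < d p i := Fin.pos y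
  change ξ i v0 _ x y = ∑ z : Fin (d p v0), c v0 * (1 : k) - ∑ w : Fin (d q i), (1 : k) * c i
  rw [ht i hi x y]
  simp only [mul_one, one_mul, Finset.sum_const, Finset.card_univ, Fintype.card_fin, nsmul_eq_mul]
  have hc0 : c v0 = c0 := if_pos rfl
  have hci : c i = (d p v0 : k) * c0 - t i := if_neg hi
  rw [hc0, hci]
  rcases Nat.le_one_iff_eq_zero_or_eq_one.1 (d_le_one q i) with h | h
  · have h1 := ext_cases p q i hi hy h hx
    have hc : c0 = t i := by
      refine (Finset.sum_eq_single i ?_ ?_).trans ?_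
      · intro j _ hj
        apply if_neg
        rintro ⟨h3, h4, h5⟩
        exact hj (ext_cases' p q i j hi hy h h3 h4 h5 hx)
      · intro h
        exact absurd (Finset.mem_univ i) h
      · exact if_pos ⟨hi, hy, h⟩
    rw [h, h1, hc]
    simp
  · rw [h]
    simp

theorem isZero_iff {p q : Fin 4} {x : HE (X k p) (X k q)} (hx : IsHom x.1) :
    IsZero x ↔ evH x.1 = 0 := by
  constructor
  · intro h
    exact congrFun (congrFun (h.1 v3) ⟨0, Nat.one_pos⟩) ⟨0, Nat.one_pos⟩
  · intro h
    exact ⟨congrFun (ev_injective hx zero_isHom h), noExt p q x.2⟩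

/-- the canonical morphism -/
def E (p q : Fin 4) : HE (X k p) (X k q) := (e p q, fun _ _ _ => 0)

theorem E_isHom {p q : Fin 4} (h : le p q) : IsHom (E (k := k) p q).1 := e_isHom h

theorem isZero_sub {p q : Fin 4} (h : le p q) {x : HE (X k p) (X k q)} (hx : IsHom x.1) :
    IsZero (sub x (smul (evH x.1) (E p q))) := by
  rw [isZero_iff (sub_isHom hx (smul_isHom _ (E_isHom h)))]
  change evH x.1 - evH x.1 * 1 = 0
  rw [mul_one, sub_self]

theorem le_antisymm' : ∀ p q : Fin 4, le p q → le q p → p = q := by decide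

theorem mem_rad_of_ne {p q : Fin 4} (h : p ≠ q) {x : HE (X k p) (X k q)} (hx : IsHom x.1) :
    x ∈ rad (X k) p q := by
  refine ⟨hx, fun y hy => ⟨one _, one_isHom, ?_⟩⟩
  have h0 : evH y.1 * evH x.1 = 0 := by
    by_cases h1 : le p q
    · have h2 : ¬ le q p := fun h2 => h (le_antisymm' p q h1 h2)
      rw [ev_eq_zero h2 hy, zero_mul]
    · rw [ev_eq_zero h1 hx, mul_zero]
  have h1 : IsHom (sub (one (X k p)) (comp y x)).1 := sub_isHom one_isHom (comp_isHom hy hx)
  have h2 : evH (sub (one (X k p)) (comp y x)).1 = 1 := by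
    change 1 - evH (comp y x).1 = 1
    rw [ev_comp, h0, sub_zero]
  constructor
  · rw [isZero_iff (sub_isHom (comp_isHom one_isHom h1) one_isHom)]
    change evH (comp (one (X k p)) (sub (one (X k p)) (comp y x))).1 - 1 = 0
    rw [ev_comp, h2, mul_one]
    exact sub_self 1
  · rw [isZero_iff (sub_isHom (comp_isHom h1 one_isHom) one_isHom)]
    change evH (comp (sub (one (X k p)) (comp y x)) (one (X k p))).1 - 1 = 0
    rw [ev_comp, h2, one_mul]
    exact sub_self 1

theorem rad_self {p : Fin 4} {x : HE (X k p) (X k p)} (h : x ∈ rad (X k) p p) : evH x.1 = 0 := by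
  by_contra h0
  obtain ⟨z, hz, h1, -⟩ := h.2 (smul (evH x.1)⁻¹ (one _)) (smul_isHom _ one_isHom)
  have h2 : evH (sub (one (X k p)) (comp (smul (evH x.1)⁻¹ (one (X k p))) x)).1 = 0 := by
    change 1 - evH (comp (smul (evH x.1)⁻¹ (one (X k p))) x).1 = 0
    rw [ev_comp]
    change 1 - ((evH x.1)⁻¹ * 1) * evH x.1 = 0
    rw [mul_one, inv_mul_cancel₀ h0, sub_self]
  have h3 := congrFun (congrFun (h1.1 v3) ⟨0, Nat.one_pos⟩) ⟨0, Nat.one_pos⟩
  change evH (comp z (sub (one (X k p)) (comp (smul (evH x.1)⁻¹ (one (X k p))) x))).1 - 1 = 0 at h3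
  rw [ev_comp, h2, mul_zero, zero_sub, neg_eq_zero] at h3
  exact one_ne_zero h3

/-- the covering relation of the order -/
def cov (p q : Fin 4) : Prop := (p = 0 ∧ (q = 1 ∨ q = 2)) ∨ ((p = 1 ∨ p = 2) ∧ q = 3)

instance (p q : Fin 4) : Decidable (cov p q) :=
  inferInstanceAs (Decidable ((p = 0 ∧ (q = 1 ∨ q = 2)) ∨ ((p = 1 ∨ p = 2) ∧ q = 3)))

theorem cov_le : ∀ p q : Fin 4, cov p q → le p q := by decide

theorem cov_ne : ∀ p q : Fin 4, cov p q → p ≠ q := by decide

theorem cov_no_between : ∀ p q : Fin 4, cov p q → ∀ l : Fin 4, le p l → le l q →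
    p = l ∨ l = q := by decide

theorem le_cases' : ∀ p q : Fin 4, le p q → p ≠ q → cov p q ∨ (p = 0 ∧ q = 3) := by decide

theorem radSq_cov {p q : Fin 4} (h : cov p q) {w : HE (X k p) (X k q)} (hw : RadSq (X k) p q w) :
    evH w.1 = 0 := by
  induction hw with
  | null w hw => exact congrFun (congrFun (hw.1 v3) ⟨0, Nat.one_pos⟩) ⟨0, Nat.one_pos⟩
  | mul l x hx y hy =>
    rw [ev_comp]
    by_cases h1 : le p l
    · by_cases h2 : le l q
      · rcases cov_no_between p q h l h1 h2 with h3 | h3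
        · subst h3
          rw [rad_self hx, mul_zero]
        · subst h3
          rw [rad_self hy, zero_mul]
      · rw [ev_eq_zero h2 hy.1, zero_mul]
    · rw [ev_eq_zero h1 hx.1, mul_zero]
  | add x y _ _ hx hy =>
    change evH x.1 + evH y.1 = 0
    rw [hx, hy, add_zero]
  | smul c x _ hx =>
    change c * evH x.1 = 0
    rw [hx, mul_zero]

theorem radSq_03 {x : HE (X k 0) (X k 3)} (hx : IsHom x.1) : RadSq (X k) 0 3 x := by
  have h1 : RadSq (X k) 0 3 (comp (E 1 3) (E 0 1)) :=
    RadSq.mul 1 _ (mem_rad_of_ne (by decide) (E_isHom (by decide))) _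
      (mem_rad_of_ne (by decide) (E_isHom (by decide)))
  have h2 : IsHom (comp (E (k := k) 1 3) (E 0 1)).1 :=
    comp_isHom (E_isHom (by decide)) (E_isHom (by decide))
  have h3 : IsZero (sub x (smul (evH x.1) (comp (E 1 3) (E 0 1)))) := by
    rw [isZero_iff (sub_isHom hx (smul_isHom _ h2))]
    change evH x.1 - evH x.1 * evH (comp (E (k := k) 1 3) (E 0 1)).1 = 0
    rw [ev_comp]
    change evH x.1 - evH x.1 * (1 * 1) = 0
    rw [mul_one, mul_one, sub_self]
  have h4 := RadSq.add _ _ (RadSq.null _ h3) (RadSq.smul (evH x.1) _ h1)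
  have h5 : add (sub x (smul (evH x.1) (comp (E 1 3) (E 0 1))))
      (smul (evH x.1) (comp (E 1 3) (E 0 1))) = x :=
    Prod.ext (funext fun i => sub_add_cancel _ _)
      (funext fun i => funext fun j => funext fun a => sub_add_cancel _ _)
  rwa [h5] at h4

theorem lin_single {X Y : Rep k Vtx} {ι : Type} (φ : ι → HE X Y) (a : ι) (t : k) :
    lin φ (Finsupp.single a t) = smul t (φ a) := by
  classical
  refine Prod.ext (funext fun i => ?_) (funext fun i => funext fun j => funext fun e => ?_)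
  · change ∑ b ∈ (Finsupp.single a t).support, (Finsupp.single a t) b • (φ b).1 i = t • (φ a).1 i
    have h := Finsupp.sum_single_index (a := a) (b := t) (h := fun b t => t • (φ b).1 i)
      (zero_smul k _)
    exact h
  · change ∑ b ∈ (Finsupp.single a t).support, (Finsupp.single a t) b • (φ b).2 i j e =
      t • (φ a).2 i j e
    have h := Finsupp.sum_single_index (a := a) (b := t) (h := fun b t => t • (φ b).2 i j e)
      (zero_smul k _)
    exact h

theorem lin_add {X Y : Rep k Vtx} {ι : Type} (φ : ι → HE X Y) (c c' : ι →₀ k) :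
    lin φ (c + c') = add (lin φ c) (lin φ c') := by
  classical
  refine Prod.ext (funext fun i => ?_) (funext fun i => funext fun j => funext fun e => ?_)
  · exact Finsupp.sum_add_index' (h := fun b t => t • (φ b).1 i) (fun b => zero_smul k _)
      (fun b s t => add_smul s t _)
  · exact Finsupp.sum_add_index' (h := fun b t => t • (φ b).2 i j e) (fun b => zero_smul k _)
      (fun b s t => add_smul s t _)

theorem sub_lin_zero {X Y : Rep k Vtx} {ι : Type} (φ : ι → HE X Y) (x : HE X Y) :
    sub x (lin φ 0) = x :=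
  Prod.ext (funext fun _ => sub_zero _)
    (funext fun _ => funext fun _ => funext fun _ => sub_zero _)

/-- a Hom-Ext quiver of the collection: the square -/
def Γ₀ : HomExtQuiver (X k) where
  A p q := PLift (cov p q)
  φ p q _ := E p q
  homogeneous _ _ _ := Or.inr fun _ _ _ => rfl
  mem_rad p q a := mem_rad_of_ne (cov_ne _ _ a.down) (E_isHom (cov_le _ _ a.down))
  spans p q x hx := by
    by_cases h : cov p q
    · refine ⟨Finsupp.single ⟨h⟩ (evH x.1), ?_⟩
      rw [lin_single]
      exact RadSq.null _ (isZero_sub (cov_le p q h) hx.1)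
    · refine ⟨0, ?_⟩
      rw [sub_lin_zero]
      by_cases h1 : le p q
      · by_cases hpq : p = q
        · subst hpq
          exact RadSq.null _ ((isZero_iff hx.1).2 (rad_self hx))
        · rcases le_cases' p q h1 hpq with h2 | ⟨rfl, rfl⟩
          · exact absurd h2 h
          · exact radSq_03 hx.1
      · exact RadSq.null _ ((isZero_iff hx.1).2 (ev_eq_zero h1 hx.1))
  independent p q c hc := by
    ext a
    have h : cov p q := a.down
    have h1 := radSq_cov h hc
    have h2 : c = Finsupp.single a (c a) := by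
      ext b
      rw [Subsingleton.elim b a, Finsupp.single_eq_same]
    rw [h2, lin_single] at h1
    change c a * 1 = 0 at h1
    rw [mul_one] at h1
    rw [h1]
    rfl

variable (Γ : HomExtQuiver (X k))

theorem ev_arrow {p q : Fin 4} (a : Γ.A p q) : evH (Γ.φ p q a).1 ≠ 0 := by
  intro h
  have h1 : IsZero (Γ.φ p q a) := (isZero_iff (Γ.mem_rad p q a).1).2 h
  have h2 := Γ.independent p q (Finsupp.single a 1) (by
    have h3 : smul 1 (Γ.φ p q a) = Γ.φ p q a :=
      Prod.ext (funext fun _ => one_smul k _)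
        (funext fun _ => funext fun _ => funext fun _ => one_smul k _)
    rw [lin_single, h3]
    exact RadSq.null _ h1)
  exact one_ne_zero ((Finsupp.single_eq_zero).1 h2)

theorem ev_path {p q : Fin 4} (a : Pth Γ.A p q) : IsHom (eval Γ a).1 ∧ evH (eval Γ a).1 ≠ 0 := by
  induction a with
  | nil => exact ⟨one_isHom, one_ne_zero⟩
  | cons a b ih =>
    refine ⟨comp_isHom (Γ.mem_rad _ _ b).1 ih.1, ?_⟩
    change evH (comp (Γ.φ _ _ b) (eval Γ a)).1 ≠ 0
    rw [ev_comp]
    exact mul_ne_zero (ev_arrow Γ b) ih.2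

theorem nonempty_arrow {p q : Fin 4} (h : cov p q) : Nonempty (Γ.A p q) := by
  by_contra hA
  rw [not_nonempty_iff] at hA
  obtain ⟨c, hc⟩ := Γ.spans p q (E p q) (mem_rad_of_ne (cov_ne p q h) (E_isHom (cov_le p q h)))
  have hc0 : c = 0 := Subsingleton.elim _ _
  rw [hc0, sub_lin_zero] at hc
  exact one_ne_zero (radSq_cov h hc)

theorem not_monomial : ¬ IsMonomial Γ := by
  rintro ⟨S, -, hS⟩
  have hbot : ∀ c ∈ R Γ 0 3, c = 0 := by
    intro c hc
    rw [hS] at hc
    have h0 : Submodule.span k {x : Pth Γ.A 0 3 →₀ k | ∃ (l n : Fin 4) (p : Pth Γ.A 0 l)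
        (s : Pth Γ.A l n) (q : Pth Γ.A n 3), s ∈ S l n ∧
        x = Finsupp.single ((p.append s).append q) 1} = ⊥ := by
      rw [Submodule.span_eq_bot]
      rintro _ ⟨l, n, p, s, q, hs, rfl⟩
      exfalso
      have h1 : Finsupp.single ((p.append s).append q) 1 ∈ R Γ 0 3 := by
        rw [hS]
        exact Submodule.subset_span ⟨l, n, p, s, q, hs, rfl⟩
      have h2 : IsZero (lin (eval Γ (i := 0) (j := 3))
        (Finsupp.single ((p.append s).append q) 1)) := h1
      rw [lin_single] at h2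
      have h3 := congrFun (congrFun (h2.1 v3) ⟨0, Nat.one_pos⟩) ⟨0, Nat.one_pos⟩
      change 1 * evH (eval Γ ((p.append s).append q)).1 = 0 at h3
      rw [one_mul] at h3
      exact (ev_path Γ ((p.append s).append q)).2 h3
    rw [h0] at hc
    exact hc
  obtain ⟨a⟩ := nonempty_arrow Γ (p := 0) (q := 1) (by decide)
  obtain ⟨b⟩ := nonempty_arrow Γ (p := 1) (q := 3) (by decide)
  obtain ⟨c⟩ := nonempty_arrow Γ (p := 0) (q := 2) (by decide)
  obtain ⟨d⟩ := nonempty_arrow Γ (p := 2) (q := 3) (by decide)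
  let P : Pth Γ.A 0 3 := .cons (.cons (.nil 0) a) b
  let Q : Pth Γ.A 0 3 := .cons (.cons (.nil 0) c) d
  have hPQ : P ≠ Q := by
    intro h
    injection h with h1
    exact absurd h1 (by decide)
  have hr : Finsupp.single P (evH (eval Γ Q).1) + Finsupp.single Q (-evH (eval Γ P).1) ∈
      R Γ 0 3 := by
    change IsZero (lin (eval Γ (i := 0) (j := 3)) _)
    rw [lin_add, lin_single, lin_single]
    rw [isZero_iff (add_isHom (smul_isHom _ (ev_path Γ P).1) (smul_isHom _ (ev_path Γ Q).1))]
    change evH (eval Γ Q).1 * evH (eval Γ P).1 + -evH (eval Γ P).1 * evH (eval Γ Q).1 = 0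
    ring
  have h2 := DFunLike.congr_fun (hbot _ hr) P
  rw [Finsupp.add_apply, Finsupp.single_eq_same, Finsupp.single_eq_of_ne hPQ, add_zero] at h2
  exact (ev_path Γ Q).2 h2

theorem exceptional (p : Fin 4) : IsExceptional (X k p) := by
  refine ⟨⟨v3, one_ne_zero⟩, fun f hf hi => ?_, noExt p p⟩
  have h : evH f * evH f = evH f := by
    have h1 := congrFun (congrFun (hi v3) ⟨0, Nat.one_pos⟩) ⟨0, Nat.one_pos⟩
    rw [← ev_comp (k := k) (f, fun _ _ _ => 0) (f, fun _ _ _ => 0)]
    exact h1
  have h' : evH f * (evH f - 1) = 0 := by rw [mul_sub, mul_one, h, sub_self]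
  rcases mul_eq_zero.1 h' with h1 | h1
  · left
    intro i
    exact congrFun (ev_injective hf zero_isHom h1) i
  · right
    intro i
    exact congrFun (ev_injective hf one_isHom (sub_eq_zero.1 h1)) i

theorem le_of_lt : ∀ i j : Fin 4, j < i → ¬ le i j := by decide

theorem exceptionalCollection : IsExceptionalCollection (X k) := by
  refine ⟨exceptional, Equiv.refl _, fun i j hij => ⟨fun f hf => ?_, noExt _ _⟩⟩
  exact congrFun (ev_injective hf zero_isHom (ev_eq_zero (le_of_lt i j hij) hf))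

end Example

/-- Over every field `k` there are a finite acyclic quiver `V` (of type `D₄`) and an exceptional
collection of four representations of `V` which has a Hom-Ext quiver, such that for each of its
Hom-Ext quivers the ideal `R` is not generated by paths of length at least two. -/
theorem result (k : Type u) [Field k] :
    ∃ (V : Type) (_ : Fintype V) (_ : Quiver.{0} V) (_ : ∀ i j : V, Finite (i ⟶ j)),
      (∀ (v : V) (p : Quiver.Path v v), p.length = 0) ∧
      ∃ X : Fin 4 → Rep k V, IsExceptionalCollection X ∧ Nonempty (HomExtQuiver X) ∧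
        ∀ Γ : HomExtQuiver X, ¬ IsMonomial Γ :=
  ⟨Vtx, inferInstance, inferInstance, fun _ _ => inferInstance, acyclic, X k,
    exceptionalCollection, ⟨Γ₀⟩, not_monomial⟩

end Pool.Agent.Results.MP_2a1499_al.CommutativeSquare
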